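import Pool.Agent.P8H10.SF.Stm

/-!
# Project SF: package ZER, a singular matrix with a zero coefficient
-/

set_option autoImplicit false

namespace Pool.Agent.P8H46.SF

open Matrix Pool.Agent.P8H10.SF

theorem zer : S_ZER := by
  intro K Ω _ _ _ M ⟨w, v, hw, hv, h⟩ hdet
  rw [Matrix.det_fin_two] at hdet
  simp only [Fin.sum_univ_two] at h
  by_cases ha : algebraMap K Ω (w 0) * M 0 0 + algebraMap K Ω (w 1) * M 1 0 = 0 ∧
      algebraMap K Ω (w 0) * M 0 1 + algebraMap K Ω (w 1) * M 1 1 = 0
  · left
    intro hli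
    rw [Fintype.linearIndependent_iff] at hli
    apply hw
    funext i
    refine hli w ?_ i
    funext j
    simp only [Fin.sum_univ_two, Pi.add_apply, Pi.smul_apply, Pi.zero_apply, Algebra.smul_def,
      Matrix.row_apply]
    fin_cases j
    · exact ha.1
    · exact ha.2
  · right
    intro hli
    rw [Fintype.linearIndependent_iff] at hli
    apply hv
    have hb : ∀ i : Fin 2, M i 0 * algebraMap K Ω (v 0) + M i 1 * algebraMap K Ω (v 1) = 0 := by
      generalize algebraMap K Ω (w 0) = w0 at h ha
      generalize algebraMap K Ω (w 1) = w1 at h ha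
      generalize algebraMap K Ω (v 0) = v0 at h ⊢
      generalize algebraMap K Ω (v 1) = v1 at h ⊢
      intro i
      have hrow : M i 0 * (w0 * M 0 1 + w1 * M 1 1) = M i 1 * (w0 * M 0 0 + w1 * M 1 0) := by
        fin_cases i
        · show M 0 0 * (w0 * M 0 1 + w1 * M 1 1) = M 0 1 * (w0 * M 0 0 + w1 * M 1 0)
          linear_combination w1 * hdet
        · show M 1 0 * (w0 * M 0 1 + w1 * M 1 1) = M 1 1 * (w0 * M 0 0 + w1 * M 1 0)
          linear_combination -w0 * hdet
      by_cases h0 : w0 * M 0 0 + w1 * M 1 0 = 0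
      · have h1 : w0 * M 0 1 + w1 * M 1 1 ≠ 0 := fun h1 => ha ⟨h0, h1⟩
        apply mul_left_cancel₀ h1
        rw [mul_zero]
        linear_combination v0 * hrow + M i 1 * h
      · apply mul_left_cancel₀ h0
        rw [mul_zero]
        linear_combination -v1 * hrow + M i 0 * h
    funext j
    refine hli v ?_ j
    funext i
    simp only [Fin.sum_univ_two, Pi.add_apply, Pi.smul_apply, Pi.zero_apply, Algebra.smul_def,
      Matrix.col_apply]
    have := hb i
    rw [mul_comm (M i 0), mul_comm (M i 1)] at this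
    exact this

end Pool.Agent.P8H46.SF
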